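import Pool.Agent.helper7.EP.AllB

/-!
# MP_ebc808_nt: two-scale lower bound for the number of even values of the partition function
-/

set_option autoImplicit false

open Finset

namespace Pool.Agent.Results.MP_ebc808_nt.EvenGoldenRatio

/-- For every `ε > 0` and all large `X`, for every `Z ≥ X^(3/2+ε)`: at least `Z^(1/2-ε)` of the
numbers `n ≤ X`, or at least `(X Z)^(1/2-ε)` of the numbers `n ≤ Z`, have an even number of
partitions. -/
theorem result : ∀ ε : ℝ, 0 < ε → ∃ X₀ : ℕ, ∀ X Z : ℕ, X₀ ≤ X → (X : ℝ) ^ (3 / 2 + ε) ≤ Z →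
    (Z : ℝ) ^ (1 / 2 - ε) ≤
        (#{n ∈ range (X + 1) | Even (Fintype.card (Nat.Partition n))} : ℝ) ∨
      ((X : ℝ) * Z) ^ (1 / 2 - ε) ≤
        (#{n ∈ range (Z + 1) | Even (Fintype.card (Nat.Partition n))} : ℝ) :=
  Pool.Agent.EP.all_RESB2

end Pool.Agent.Results.MP_ebc808_nt.EvenGoldenRatio
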