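import Mathlib
import Pool.Agent.helper29.JT.ASM
import Pool.Agent.helper33.JT.FIN
import Pool.Agent.helper29.OC.Fin

set_option autoImplicit false

namespace Pool.Agent.helper7.Reserve.JointParity

/-- Let `p(n)` be the number of partitions of `n`, let `H` be a nonempty finite set of natural
numbers (shifts), let `r` be any eventually periodic sequence of elements of `ZMod 2`
(`r (n + t) = r n` for all `n ≥ N₀`, where `t ≥ 1`), and let `a` modulo `2 ^ i` be any residue
class.  Then there is a constant `c > 0` such that for all large `X` at least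
`c * √X * log X / (log log X) ^ 3` integers `n ≤ X` satisfy `n ≡ a` modulo `2 ^ i` and
`∑ p(n - h) ≢ r(n)` modulo `2`, the sum over the `h ∈ H` with `h ≤ n`.  If `H = {0}` (the sum is
`p(n)`) and `r b = 1` for some `b ≥ N₀` in the class, then there are at least
`c * √X * log X / (log log X) ^ 2` such integers.  With `H = {0}` and `r = 0` these are the `n` in
the class with `p(n)` odd, with `H = {0}` and `r = 1` those with `p(n)` even; with `H = {0, h}` and
`r = 0` or `r = 1` those where `p(n)` and `p(n - h)` have different parity, or equal parity. -/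
theorem result (H : Finset ℕ) (hH : H.Nonempty) (r : ℕ → ZMod 2) (t N₀ i a : ℕ) (ht : 1 ≤ t)
    (hr : ∀ n ≥ N₀, r (n + t) = r n) :
    ∃ c : ℝ, 0 < c ∧ ∀ᶠ X : ℕ in Filter.atTop,
      c * √X * Real.log X / (Real.log (Real.log X)) ^ 3 ≤
        (((Finset.range (X + 1)).filter fun n => n ≡ a [MOD 2 ^ i] ∧
          ∑ h ∈ H.filter (fun h => h ≤ n), (Fintype.card (Nat.Partition (n - h)) : ZMod 2)
            ≠ r n).card : ℝ) ∧
      (H = {0} → (∃ b ≥ N₀, b ≡ a [MOD 2 ^ i] ∧ r b = 1) →
        c * √X * Real.log X / (Real.log (Real.log X)) ^ 2 ≤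
          (((Finset.range (X + 1)).filter fun n => n ≡ a [MOD 2 ^ i] ∧
            ∑ h ∈ H.filter (fun h => h ≤ n), (Fintype.card (Nat.Partition (n - h)) : ZMod 2)
              ≠ r n).card : ℝ)) := by
  classical
  obtain ⟨κ, hκ, h1⟩ : ∃ κ : ℝ, 0 < κ ∧ ∀ᶠ X : ℕ in Filter.atTop,
      κ * √X * Real.log X / (Real.log (Real.log X)) ^ 3 ≤
        (((Finset.range (X + 1)).filter fun n => n ≡ a [MOD 2 ^ i] ∧
          ∑ h ∈ H.filter (fun h => h ≤ n), (Fintype.card (Nat.Partition (n - h)) : ZMod 2)
            ≠ r n).card : ℝ) := by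
    set A : Polynomial (ZMod 2) := ∑ h ∈ H, Polynomial.X ^ h with hA
    have hco : ∀ n, A.coeff n = if n ∈ H then 1 else 0 := by
      intro n
      rw [hA, Polynomial.finsetSum_coeff]
      simp only [Polynomial.coeff_X_pow]
      rw [Finset.sum_ite_eq]
    have hsup : A.support = H := by
      ext n
      rw [Polynomial.mem_support_iff, hco]
      by_cases hn : n ∈ H
      · simp [hn]
      · simp [hn]
    have hA0 : A ≠ 0 := by
      obtain ⟨h, hh⟩ := hH
      intro h0
      have := hco h
      rw [h0, if_pos hh, Polynomial.coeff_zero] at this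
      exact zero_ne_one this
    have := Pool.Agent.helper7.JT.joint_parity_of Pool.Agent.helper7.JT.joint_class A hA0 r t N₀ i a
      ht hr
    rw [hsup] at this
    exact this
  obtain ⟨c, hc, X₀, h2⟩ := Pool.Agent.helper7.OC.all_periodic r t N₀ i a ht hr
  obtain ⟨X₁, h1⟩ := Filter.eventually_atTop.mp h1
  refine ⟨min κ c, lt_min hκ hc, Filter.eventually_atTop.mpr ⟨max (max X₀ X₁) 3, fun X hX => ?_⟩⟩
  have hX₀ : X₀ ≤ X := by omega
  have hX₁ : X₁ ≤ X := by omega
  have hX3 : 3 ≤ X := by omega
  have hlog1 : 1 ≤ Real.log X := by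
    rw [Real.le_log_iff_exp_le (by positivity)]
    have h3 : (3 : ℝ) ≤ X := by exact_mod_cast hX3
    linarith [Real.exp_one_lt_d9]
  have hlog2 : 0 ≤ Real.log (Real.log X) := Real.log_nonneg hlog1
  have hm : ∀ (u v : ℝ) (k : ℕ), u ≤ v → u * √X * Real.log X / (Real.log (Real.log X)) ^ k ≤
      v * √X * Real.log X / (Real.log (Real.log X)) ^ k := fun u v k huv => by
    have e : ∀ w : ℝ, w * √X * Real.log X / (Real.log (Real.log X)) ^ k
        = w * (√X * Real.log X / (Real.log (Real.log X)) ^ k) := fun w => by ring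
    rw [e, e]
    exact mul_le_mul_of_nonneg_right huv (by positivity)
  refine ⟨(hm _ _ 3 (min_le_left _ _)).trans (h1 X hX₁), fun hH0 hb => ?_⟩
  · refine (hm _ _ 2 (min_le_right _ _)).trans (((h2 X hX₀).2 hb).trans (le_of_eq ?_))
    congr 2
    ext n
    have e : H.filter (fun h => h ≤ n) = {0} := by
      rw [hH0]
      ext m
      simp only [Finset.mem_filter, Finset.mem_singleton]
      constructor
      · exact fun h => h.1
      · exact fun h => ⟨h, by omega⟩
    simp only [Finset.mem_filter, e, Finset.sum_singleton, Nat.sub_zero, Nat.ModEq]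

end Pool.Agent.helper7.Reserve.JointParity
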