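import Pool.Agent.helper7.FI23.FinJ

/-!
# Dade's conjecture for blocks with abelian defect group and semi-free inertial action, `|I| < exp [D, I]`

Let `p` be an odd prime, `G` a finite group with `O_p(G) = 1`, `B` a `p`-block of `G` with abelian defect group `D`, `b` a
block of `C_G(D)` with `b^G = B`, and `I = N_G(D, b) / C_G(D)` the inertial quotient. Assume

1. `I` is abelian and acts semi-freely on `D` (the elements `≠ 1` of `I` have the same fixed points, those of `I`), and `|I|` is smaller
   than the order of some `w⁻¹ t(w)`, `w ∈ D`, `t ∈ I`; or
2. `I` acts freely on `D \ {1}`, and `|I| < exp(D)`.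

Then `B` has `k(I) |C_D(I)| + (|D| - |C_D(I)|) / |I|` irreducible characters, `k(I)` the number of the conjugacy classes of `I`, and
the sum over `d` of the alternating sums of Dade's conjecture for `B` is zero (this is the blockwise Alperin weight conjecture in
the form of Knörr and Robinson), for `E = G` and for every extension `E` with `E_B = E[B]` (Dade's group). If moreover `I` is abelian
or `|I| < p ^ 2`, then all characters of `B` have height zero and the alternating sum is zero for every `d`. (By Kessar and Malle,
Ann. of Math. 178 (2013), the heights are zero for every block with abelian defect group; this is not used.) In case 1 the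
assertions on the characters of `B` hold for every `G`.

Examples for 1: `I` is cyclic of prime order `q` and `q` is smaller than the exponent of `[D, I]`, in particular `q < p`, with arbitrary
fixed points; `|I| < p`, `I` cyclic and semi-free. Examples for 2: `D` is a product of at most `n` cyclic groups of order `p ^ n` and
`I` is any group which acts freely (then `|I| ≤ p ^ n - 1`), for example `I` the quaternion group or `SL(2, 3)` or `SL(2, 5)` acting on
`C_(p^2) × C_(p^2)`.

Sketch of the proof. For `P ≤ D` let `b_P = b^(C_G(P))`, a block with defect group `D`.

* Local blocks. If `P` is not contained in `Y = C_D(I)` the inertial quotient of `b_P` is `1`; then `b_P` has `|D|` irreducible characters,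
  which agree on the `p`-regular elements. If `P ≤ Y` the inertial quotient is `I`, and the theorem for `C_G(P)` and the characters
  over a character of the centre is proved by induction on `|C_G(P)|`.
* Chains. If `C ≠ 1` is a chain of `p`-subgroups of `G`, the number of the characters of `N_G(C)` in blocks which induce to `B`
  follows from Clifford theory over `C_G(P)`, `P` the largest term of `C`, and from Brauer's permutation lemma for the matrix
  of the generalised decomposition numbers of `b_P`; it depends only on the stabiliser in `I` of the chain. Adding `D` to the
  chain or removing it cancels all but two terms, so the sum over all `d` of the alternating sums is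
  `k(B) - (k(I) |Y| + (|D| - |Y|) / |I|)`. (If `I` is not abelian its elements `≠ 1` which commute generate a cyclic group, by
  freeness, and the commuting pairs in the stabilisers are counted.)
* Global block. There is an idempotent `i` of the group algebra over the local ring, invariant under `N_G(D, b)`, whose image under
  the Brauer homomorphism is the block idempotent of `b`. Let `β χ u`, `u ∈ D`, be the trace of `i u` on the module of `χ`, divided by
  the degree of `b`. It is a character of `D` which is invariant under `I`, and for `u` outside `Y` it is `n u * d^u χ`, `n u` an integer prime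
  to `p`, `d^u χ` the generalised decomposition number. The congruences between the values of the characters of `D` show that `n u`
  is congruent to `± δ` modulo `p`, and that `ε u d^u χ`, `ε u` the sign, has integral scalar products `a (χ; λ)` with the `λ - μ`,
  `λ, μ ∈ Irr(D)` over the same character of `Y`. The Gram matrix of the vectors `a (·; λ)`, one for each orbit of `I`, is
  `δ_ij + |I|` by the orthogonality of the columns, and the minimum of the quadratic form `∑_{i<j} (a_i - a_j) ^ 2` gives the upper
  bound `l(B) ≤ |I|` for the number of Brauer characters.
* By the divisibility theorem of the hand-in `AllPrimes` (and a version for the characters over the trivial character of a central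
  subgroup), the order of the commutator (respectively `exp(D)`) divides `l(B) - k(I)`, and `1 ≤ l(B) ≤ |I|`. So `l(B) = k(I)`. If `I` is
  abelian there is equality in the quadratic form, which shows that all heights are zero. If `|I| < p ^ 2` a character of positive
  height would have `|d^u χ| ≥ p` for all `u ≠ 1`, too large for the orthogonality relations.
* If `E_B = E[B]` all characters which are counted have the stabiliser `E_B / G`.
-/

set_option autoImplicit false

open Pool.Agent.helper58.DC
open Pool.Agent.DI (trivE)
open Pool.Agent.BQ (AB AI)
open Pool.Agent.FIW

namespace Pool.Agent.Results.MP_baa4d7_al.SemiFreeInertialAction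

theorem result (p : ℕ) (hpr : p.Prime) (hodd : p ≠ 2) (M : Ideal (integralClosure ℤ ℂ)) (hM : M.IsMaximal)
    (hp : (p : integralClosure ℤ ℂ) ∈ M) (G : Type) [Group G] [Finite G] (χ : G → ℂ) (hχ : χ ∈ Irr G)
    (D : Subgroup G) (θ : G → ℂ) (h : SemiFreeInertial p M χ D θ) :
    (IsOp p (⊤ : Subgroup G) ⊥ →
      (∑ᶠ d : ℤ, altSum (trivE G) p M χ d ⊤ = 0 ∧
        (AbelianOrSmall p M D θ → ∀ d : ℤ, altSum (trivE G) p M χ d ⊤ = 0)) ∧
      ∀ (E A : Type) [Group E] [Group A] [Finite E] (X : Extension G E A), AB X M χ ≤ AI X M χ →
        ∀ U : Subgroup A, ∑ᶠ d : ℤ, altSum X p M χ d U = 0 ∧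
          (AbelianOrSmall p M D θ → ∀ d : ℤ, altSum X p M χ d U = 0)) ∧
    ((IsOp p (⊤ : Subgroup G) ⊥ ∨ (AbelianI M D θ ∧ SemiFreeI M D θ ∧ SmallComm M D θ)) →
      ∀ i k y a : ℕ, Numbers p M D θ i k y a →
        i * Nat.card {ψ : G → ℂ // ψ ∈ Irr G ∧ Induces M ψ χ} = i * (k * y) + (p ^ a - y) ∧
        (AbelianOrSmall p M D θ → ∀ ψ ∈ Irr G, Induces M ψ χ → Defect p (⊤ : Subgroup G) ψ a)) :=
  ⟨fun hG => ⟨Pool.Agent.FI23.FJ_main p hpr hodd M hM hp G hG χ hχ D θ h,
    fun E A _ _ _ X hX U => Pool.Agent.FI23.FJ_ext p hpr hodd M hM hp G hG χ hχ D θ h E A X hX U⟩,
    fun hG i k y a hn => Pool.Agent.FI23.FJ_cnt p hpr hodd M hM hp G χ hχ D θ h hG i k y a hn⟩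

end Pool.Agent.Results.MP_baa4d7_al.SemiFreeInertialAction
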